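import Pool.Agent.X185.DWCO.CO
import Pool.Agent.X238.DW.Stm3

set_option autoImplicit false

namespace Pool.Agent.X185.DW

universe v

theorem t_CO : Pool.Agent.X238.DW.S_CO.{v} := Pool.Agent.X185.DWCO.t_CO.{v}

end Pool.Agent.X185.DW
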