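import Pool.Agent.X238.DW.Stm3

set_option autoImplicit false

namespace Pool.Agent.X185.DW

open Set Filter Topology
open Pool.Agent.X238.DW

universe v

theorem t_SA : S_SA.{v} := by
  intro H _ _ _ A b hb hdense hadj hcoer
  have hfa : A.IsFormalAdjoint A := by
    have h := LinearPMap.adjoint_isFormalAdjoint (T := A) hdense
    rwa [hadj] at h
  have hcl : A.IsClosed := by
    have h := LinearPMap.adjoint_isClosed hdense
    rwa [hadj] at h
  have hbd : ∀ x : A.domain, b * ‖(x : H)‖ ≤ ‖A x‖ := by
    intro x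
    rcases eq_or_lt_of_le (norm_nonneg (x : H)) with h | h
    · rw [← h, mul_zero]; exact norm_nonneg _
    · have h1 := hcoer x
      have h2 := real_inner_le_norm (A x) (x : H)
      have h3 : (b * ‖(x : H)‖) * ‖(x : H)‖ ≤ ‖A x‖ * ‖(x : H)‖ := by nlinarith
      exact le_of_mul_le_mul_right h3 h
  have hinj : Function.Injective A := by
    intro x y hxy
    have h := hbd (x - y)
    rw [LinearPMap.map_sub, hxy, sub_self, norm_zero] at h
    have h1 : ‖((x - y : A.domain) : H)‖ ≤ 0 := by
      by_contra hc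
      push Not at hc
      have := mul_pos hb hc
      linarith
    have h2 : ((x - y : A.domain) : H) = 0 := norm_le_zero_iff.mp h1
    have h3 : x - y = 0 := Subtype.ext h2
    exact sub_eq_zero.mp h3
  -- the range is closed
  have hRcl : IsClosed (LinearMap.range A.toFun : Set H) := by
    apply isClosed_of_closure_subset
    intro y hy
    obtain ⟨z, hz, hzy⟩ := mem_closure_iff_seq_limit.mp hy
    choose x hx using hz
    have hcs : CauchySeq z := hzy.cauchySeq
    have hxc : CauchySeq (fun n => (x n : H)) := by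
      rw [Metric.cauchySeq_iff] at hcs ⊢
      intro ε hε
      obtain ⟨N, hN⟩ := hcs (b * ε) (by positivity)
      refine ⟨N, fun m hm n hn => ?_⟩
      have h1 := hN m hm n hn
      have h2 := hbd (x m - x n)
      rw [LinearPMap.map_sub] at h2
      have hx' : ∀ k, A (x k) = z k := hx
      rw [hx', hx'] at h2
      rw [dist_eq_norm] at h1 ⊢
      have h3 : b * ‖((x m - x n : A.domain) : H)‖ < b * ε := lt_of_le_of_lt h2 h1
      exact lt_of_mul_lt_mul_left h3 hb.le
    obtain ⟨x0, hx0⟩ := cauchySeq_tendsto_of_complete hxc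
    have hg : (x0, y) ∈ (A.graph : Set (H × H)) := by
      refine IsClosed.mem_of_tendsto hcl (hx0.prodMk_nhds hzy) ?_
      refine Filter.Eventually.of_forall fun n => ?_
      have : A (x n) = z n := hx n
      show ((x n : H), z n) ∈ A.graph
      rw [← this]
      exact A.mem_graph (x n)
    obtain ⟨w, _, hw2⟩ := (LinearPMap.mem_graph_iff A).mp hg
    exact ⟨w, hw2⟩
  have hRtop : LinearMap.range A.toFun = ⊤ := by
    have : CompleteSpace (LinearMap.range A.toFun) := hRcl.completeSpace_coe
    rw [← Submodule.orthogonal_eq_bot_iff, Submodule.eq_bot_iff]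
    intro y hy
    have hy' : ∀ x : A.domain, inner ℝ (A x) y = 0 := fun x =>
      (Submodule.mem_orthogonal _ _).mp hy (A x) ⟨x, rfl⟩
    have hmem : y ∈ A.domain := by
      have := LinearPMap.mem_adjoint_domain_of_exists (T := A) y
        ⟨0, fun x => by rw [inner_zero_left, real_inner_comm, hy' x]⟩
      rwa [hadj] at this
    have h1 := hcoer ⟨y, hmem⟩
    rw [hy' ⟨y, hmem⟩] at h1
    have h2 : ‖y‖ ^ 2 ≤ 0 := by
      by_contra hc
      push Not at hc
      have := mul_pos hb hc
      simp only at h1
      linarith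
    have h3 : ‖y‖ = 0 := by nlinarith [norm_nonneg y]
    exact norm_eq_zero.mp h3
  have hsurj : Function.Surjective A := by
    intro y
    have : y ∈ LinearMap.range A.toFun := by rw [hRtop]; trivial
    exact this
  let e : A.domain ≃ₗ[ℝ] H := LinearEquiv.ofBijective A.toFun ⟨hinj, hsurj⟩
  have he : ∀ x, e x = A x := fun x => rfl
  have hAe : ∀ x, A (e.symm x) = x := fun x => e.apply_symm_apply x
  let T : H →L[ℝ] H := LinearMap.mkContinuous (A.domain.subtype ∘ₗ e.symm.toLinearMap) b⁻¹ (by
    intro x
    have h := hbd (e.symm x)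
    rw [hAe] at h
    show ‖((e.symm x : A.domain) : H)‖ ≤ b⁻¹ * ‖x‖
    rw [inv_mul_eq_div, le_div_iff₀ hb]
    linarith)
  have hT : ∀ x, T x = ((e.symm x : A.domain) : H) := fun x => rfl
  have hsymm : ∀ x y : H, inner ℝ (T x) y = inner ℝ x (T y) := by
    intro x y
    rw [hT, hT]
    have h := hfa (e.symm x) (e.symm y)
    rw [hAe, hAe] at h
    exact h.symm
  refine ⟨T, ⟨?_, ?_, ?_, hsymm, ?_, ?_⟩⟩
  · intro x
    rw [hT]; exact (e.symm x).2
  · intro x h
    have : (⟨T x, h⟩ : A.domain) = e.symm x := Subtype.ext (hT x)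
    rw [this]; exact hAe x
  · intro v
    rw [hT]
    have : e.symm (A v) = v := by
      rw [← he]; exact e.symm_apply_apply v
    rw [this]
  · intro x
    have h := hcoer (e.symm x)
    rw [hAe] at h
    rw [hsymm, hT]
    exact h
  · apply hdense.mono
    intro v hv
    refine ⟨A ⟨v, hv⟩, ?_⟩
    rw [hT]
    have : e.symm (A ⟨v, hv⟩) = ⟨v, hv⟩ := by
      rw [← he]; exact e.symm_apply_apply _
    rw [this]

end Pool.Agent.X185.DW
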